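import Pool.Agent.SZT.StmtsB

set_option autoImplicit false

/-!
# SZT, row IMI: elements of `(A, y - B)` vanish at the points of `(A, B)`
-/

noncomputable section

open Polynomial H58Q
open Pool.Agent.SZT.B

namespace Pool.Agent.SZT.H18

section grow

variable {L : Type} [NormedField L]

theorem eval_bdd (p : L[X]) : ∃ C : ℝ, 0 ≤ C ∧ ∀ z : L, ‖z‖ ≤ 1 → ‖p.eval z‖ ≤ C := by
  refine ⟨∑ i ∈ Finset.range (p.natDegree + 1), ‖p.coeff i‖,
    Finset.sum_nonneg fun i _ => norm_nonneg _, fun z hz => ?_⟩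
  rw [eval_eq_sum_range]
  refine (norm_sum_le _ _).trans (Finset.sum_le_sum fun i _ => ?_)
  rw [norm_mul, norm_pow]
  exact mul_le_of_le_one_right (norm_nonneg _) (pow_le_one₀ (norm_nonneg _) hz)

theorem grow_mul0 {F G : L → L} {X₁ : L} {m : ℕ} (hF : Grow F X₁ 0) (hG : Grow G X₁ m) :
    Grow (fun X => F X * G X) X₁ m := by
  obtain ⟨C, δ, hδ, h⟩ := hF
  obtain ⟨C', δ', hδ', h'⟩ := hG
  refine ⟨|C| * |C'|, min δ δ', lt_min hδ hδ', fun X hX hd => ?_⟩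
  have h1 := h X hX (hd.trans_le (min_le_left _ _))
  have h2 := h' X hX (hd.trans_le (min_le_right _ _))
  rw [pow_zero, mul_one] at h1
  rw [norm_mul]
  calc ‖F X‖ * ‖G X‖ ≤ |C| * (|C'| * ‖X - X₁‖ ^ m) := by
        apply mul_le_mul (h1.trans (le_abs_self C)) (h2.trans ?_) (norm_nonneg _) (abs_nonneg _)
        exact mul_le_mul_of_nonneg_right (le_abs_self _) (by positivity)
    _ = |C| * |C'| * ‖X - X₁‖ ^ m := by ring

theorem grow_add {F G : L → L} {X₁ : L} {m : ℕ} (hF : Grow F X₁ m) (hG : Grow G X₁ m) :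
    Grow (fun X => F X + G X) X₁ m := by
  obtain ⟨C, δ, hδ, h⟩ := hF
  obtain ⟨C', δ', hδ', h'⟩ := hG
  refine ⟨C + C', min δ δ', lt_min hδ hδ', fun X hX hd => ?_⟩
  have h1 := h X hX (hd.trans_le (min_le_left _ _))
  have h2 := h' X hX (hd.trans_le (min_le_right _ _))
  calc ‖F X + G X‖ ≤ ‖F X‖ + ‖G X‖ := norm_add_le _ _
    _ ≤ (C + C') * ‖X - X₁‖ ^ m := by rw [add_mul]; exact add_le_add h1 h2

theorem grow_congr {F G : L → L} {X₁ : L} {m : ℕ} {ε : ℝ} (hε : 0 < ε)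
    (hFG : ∀ X, ‖X - X₁‖ < ε → F X = G X) (hF : Grow F X₁ m) : Grow G X₁ m := by
  obtain ⟨C, δ, hδ, h⟩ := hF
  refine ⟨C, min δ ε, lt_min hδ hε, fun X hX hd => ?_⟩
  rw [← hFG X (hd.trans_le (min_le_right _ _))]
  exact h X hX (hd.trans_le (min_le_left _ _))

end grow

theorem imi (pmu : B.PmuStmt) (lip : B.LipStmt) (exl : B.ExlStmt) (nod : B.NodStmt)
    (cht : B.ChtStmt) (imu : B.ImuStmt) : B.ImiStmt := by
  classical
  intro K L _ _ _ _ φ f A B θ s X₁ hN hs hX₁ hM hB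
  obtain ⟨⟨hη0, hη1, hctr⟩, -, -, -, -, -⟩ := nod L _ θ hN
  obtain ⟨cht1, cht2, cht3⟩ := cht L _ θ s hN hs
  obtain ⟨-, imu0⟩ := imu K L φ f θ s X₁ hN hs hX₁
  have hηpos : 0 < ‖eta θ‖ := norm_pos_iff.2 hη0
  have hX₁pos : 0 < ‖X₁‖ := hηpos.trans hX₁.1
  have hX₁0 : X₁ ≠ 0 := norm_pos_iff.1 hX₁pos
  have h2 : ‖(2 : L)‖ = 1 := hN.two
  obtain ⟨a, ha⟩ : ∃ a : L, a = xx θ X₁ := ⟨_, rfl⟩
  rw [← ha] at hB ⊢
  -- near X₁ we are in the annulus
  have hnear : ∀ X : L, ‖X - X₁‖ < ‖X₁‖ → ‖X‖ = ‖X₁‖ ∧ Ann ‖eta θ‖ X := by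
    intro X hX
    have h1 : ‖X‖ = ‖X₁‖ := by
      have h3 : X = (X - X₁) + X₁ := by ring
      rw [h3, IsUltrametricDist.norm_add_eq_max_of_norm_ne_norm hX.ne, max_eq_right hX.le]
    exact ⟨h1, by rw [Ann, h1]; exact hX₁⟩
  have hcurve : ∀ X : L, Ann ‖eta θ‖ X → yy θ s X ^ 2 = f.eval₂ φ (xx θ X) := by
    intro X hX
    rw [(cht1 X hX).2.1, eval_map]
  have hxx1 : ∀ X : L, Ann ‖eta θ‖ X → ‖xx θ X‖ ≤ 1 := fun X hX => (cht1 X hX).2.2.2.2.2.2.2.2.1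
  have ha1 : ‖a‖ ≤ 1 := ha ▸ hxx1 X₁ hX₁
  -- the difference of the abscissae
  have hxd : ∀ X : L, ‖X - X₁‖ < ‖X₁‖ → ‖xx θ X - a‖ ≤ (1 / ‖X₁‖) * ‖X - X₁‖ := by
    intro X hX
    obtain ⟨h1, h3⟩ := hnear X hX
    have hX0 : X ≠ 0 := norm_pos_iff.1 (by rw [h1]; exact hX₁pos)
    rw [ha, cht3 X X₁ hX0 hX₁0, norm_div, h2, div_one, norm_mul, mul_comm]
    apply mul_le_mul_of_nonneg_right _ (norm_nonneg _)
    rw [sub_eq_add_neg]
    refine (IsUltrametricDist.norm_add_le_max _ _).trans (max_le ?_ ?_)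
    · rw [norm_one, le_div_iff₀ hX₁pos, one_mul]
      exact hX₁.2.le
    · rw [norm_neg, norm_div, norm_mul, h1, div_le_div_iff₀ (by positivity) hX₁pos]
      nlinarith [hX₁.1, hX₁.2]
  -- multiplicativity and additivity of evq
  have hmul : ∀ (u v : Q K f) (X : L), Ann ‖eta θ‖ X →
      evq φ (u * v) (xx θ X) (yy θ s X) =
        evq φ u (xx θ X) (yy θ s X) * evq φ v (xx θ X) (yy θ s X) := by
    intro u v X hX
    have h3 := hcurve X hX
    simp only [evq, QuadraticAlgebra.re_mul, QuadraticAlgebra.im_mul, eval₂_add, eval₂_mul,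
      eval₂_zero, zero_mul, add_zero]
    linear_combination (-(u.im.eval₂ φ (xx θ X) * v.im.eval₂ φ (xx θ X))) * h3
  have hadd : ∀ (u v : Q K f) (x₀ y₀ : L), evq φ (u + v) x₀ y₀ = evq φ u x₀ y₀ + evq φ v x₀ y₀ := by
    intro u v x₀ y₀
    simp only [evq, QuadraticAlgebra.re_add, QuadraticAlgebra.im_add, eval₂_add]
    ring
  have hbd : ∀ u : Q K f, Grow (fun X => evq φ u (xx θ X) (yy θ s X)) X₁ 0 := fun u =>
    imu0 ⊤ u trivial
  -- it is enough to treat the two generators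
  suffices hgen : Grow (fun X => evq φ (⟨A, 0⟩ : Q K f) (xx θ X) (yy θ s X)) X₁
      ((A.map φ).roots.count a) ∧
      Grow (fun X => evq φ (⟨-B, 1⟩ : Q K f) (xx θ X) (yy θ s X)) X₁
      ((A.map φ).roots.count a) by
    intro u hu
    unfold MI at hu
    rw [Ideal.mem_span_pair] at hu
    obtain ⟨p, q, rfl⟩ := hu
    have h3 := grow_add (grow_mul0 (hbd p) hgen.1) (grow_mul0 (hbd q) hgen.2)
    refine grow_congr hX₁pos (fun X hX => ?_) h3
    obtain ⟨-, hXA⟩ := hnear X hX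
    rw [hadd, hmul _ _ X hXA, hmul _ _ X hXA]
  -- factorization of A
  obtain ⟨m, hm⟩ : ∃ m : ℕ, m = (A.map φ).roots.count a := ⟨_, rfl⟩
  rw [← hm]
  have hA0 : A.map φ ≠ 0 := by
    rw [Polynomial.map_ne_zero_iff φ.injective]
    exact hM.monic.ne_zero
  have hdvdA : (X - C a) ^ m ∣ A.map φ := by
    rw [hm, count_roots]
    exact pow_rootMultiplicity_dvd _ _
  obtain ⟨qA, hqA⟩ := hdvdA
  obtain ⟨CA, hCA0, hCA⟩ := eval_bdd qA
  have hAval : ∀ X : L, ‖X - X₁‖ < ‖X₁‖ →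
      ‖(A.map φ).eval (xx θ X)‖ ≤ CA * (1 / ‖X₁‖) ^ m * ‖X - X₁‖ ^ m := by
    intro X hX
    obtain ⟨h1, h3⟩ := hnear X hX
    rw [hqA, eval_mul, eval_pow, eval_sub, eval_X, eval_C, norm_mul, norm_pow]
    calc ‖xx θ X - a‖ ^ m * ‖qA.eval (xx θ X)‖ ≤ ((1 / ‖X₁‖) * ‖X - X₁‖) ^ m * CA := by
          apply mul_le_mul _ (hCA _ (hxx1 X h3)) (norm_nonneg _) (by positivity)
          exact pow_le_pow_left₀ (norm_nonneg _) (hxd X hX) m
      _ = CA * (1 / ‖X₁‖) ^ m * ‖X - X₁‖ ^ m := by rw [mul_pow]; ring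
  refine ⟨⟨CA * (1 / ‖X₁‖) ^ m, ‖X₁‖, hX₁pos, fun X _ hX => ?_⟩, ?_⟩
  · have h3 : evq φ (⟨A, 0⟩ : Q K f) (xx θ X) (yy θ s X) = (A.map φ).eval (xx θ X) := by
      simp only [evq, eval₂_zero, zero_mul, add_zero, eval_map]
    beta_reduce
    rw [h3]
    exact hAval X hX
  -- the second generator
  have hev : ∀ X : L, evq φ (⟨-B, 1⟩ : Q K f) (xx θ X) (yy θ s X) =
      yy θ s X - (B.map φ).eval (xx θ X) := by
    intro X
    simp only [evq, eval₂_neg, eval₂_one, one_mul, eval_map]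
    ring
  -- yy is Lipschitz near X₁
  obtain ⟨c, hc, hcv⟩ := exl L (eta θ) (fun _ => 0) s h2 hη0 hη1 (fun k => by simp) hs.1
  have hyyv : ∀ X : L, Ann ‖eta θ‖ X → val c X = yy θ s X := by
    intro X hX
    rw [hcv X hX]
    unfold yy
    have h3 : pval (fun _ => (0 : L)) ((X + eta θ / X) / 2) = 0 := by
      unfold pval
      simp
    rw [h3, zero_add]
  have hyyL : ∀ X : L, ‖X - X₁‖ < ‖X₁‖ → ‖yy θ s X - yy θ s X₁‖ ≤ ‖X - X₁‖ / ‖X₁‖ := by
    intro X hX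
    obtain ⟨h1, h3⟩ := hnear X hX
    rw [← hyyv X h3, ← hyyv X₁ hX₁]
    exact lip L ‖eta θ‖ c X X₁ hηpos hη1 hc hX₁ h1
  -- B is Lipschitz
  have hBd : ∃ C : ℝ, 0 ≤ C ∧ ∀ X : L, ‖X - X₁‖ < ‖X₁‖ →
      ‖(B.map φ).eval (xx θ X) - (B.map φ).eval a‖ ≤ C * ‖X - X₁‖ := by
    have h3 : (X - C a) ∣ B.map φ - C ((B.map φ).eval a) := by
      rw [dvd_iff_isRoot]
      simp
    obtain ⟨qB, hqB⟩ := h3
    obtain ⟨CB, hCB0, hCB⟩ := eval_bdd qB
    refine ⟨(1 / ‖X₁‖) * CB, by positivity, fun X hX => ?_⟩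
    obtain ⟨h1, h3⟩ := hnear X hX
    have h4 := congrArg (eval (xx θ X)) hqB
    rw [eval_sub, eval_C, eval_mul, eval_sub, eval_X, eval_C] at h4
    rw [h4, norm_mul]
    calc ‖xx θ X - a‖ * ‖qB.eval (xx θ X)‖ ≤ ((1 / ‖X₁‖) * ‖X - X₁‖) * CB :=
          mul_le_mul (hxd X hX) (hCB _ (hxx1 X h3)) (norm_nonneg _) (by positivity)
      _ = (1 / ‖X₁‖) * CB * ‖X - X₁‖ := by ring
  obtain ⟨CB, hCB0, hCB⟩ := hBd
  -- the difference y - B is Lipschitz
  have hdiff : ∀ X : L, ‖X - X₁‖ < ‖X₁‖ →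
      ‖yy θ s X - (B.map φ).eval (xx θ X)‖ ≤ (1 / ‖X₁‖ + CB) * ‖X - X₁‖ := by
    intro X hX
    have h3 : yy θ s X - (B.map φ).eval (xx θ X) =
        (yy θ s X - yy θ s X₁) - ((B.map φ).eval (xx θ X) - (B.map φ).eval a) := by
      rw [hB]
      ring
    rw [h3]
    calc _ ≤ ‖yy θ s X - yy θ s X₁‖ + ‖(B.map φ).eval (xx θ X) - (B.map φ).eval a‖ :=
          norm_sub_le _ _
      _ ≤ ‖X - X₁‖ / ‖X₁‖ + CB * ‖X - X₁‖ := add_le_add (hyyL X hX) (hCB X hX)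
      _ = (1 / ‖X₁‖ + CB) * ‖X - X₁‖ := by ring
  by_cases hy0 : yy θ s X₁ = 0
  · -- Weierstrass point: m ≤ 1
    have hm1 : m ≤ 1 := by
      by_contra hcon
      push Not at hcon
      have h3 : (X - C a) ^ 2 ∣ A.map φ := (pow_dvd_pow _ hcon).trans ⟨qA, hqA⟩
      have h4 : (X - C a) ∣ B.map φ := by
        rw [dvd_iff_isRoot, IsRoot, hB, hy0]
      have h5 : (X - C a) ^ 2 ∣ (B ^ 2 - f).map φ := h3.trans (Polynomial.map_dvd φ hM.dvd)
      rw [Polynomial.map_sub, Polynomial.map_pow] at h5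
      have h6 : (X - C a) ^ 2 ∣ f.map φ := by
        have h7 := (dvd_sub_right (pow_dvd_pow_of_dvd h4 2)).1 h5
        exact h7
      have hinj : Function.Injective θ := by
        intro i j hij
        by_contra hne
        by_cases h01 : i = 0 ∧ j = 1
        · exact hN.ne (by rw [← h01.1, ← h01.2]; exact hij)
        by_cases h10 : i = 1 ∧ j = 0
        · exact hN.ne (by rw [← h10.1, ← h10.2]; exact hij.symm)
        have h8 := hN.far i j hne h01 h10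
        rw [hij, sub_self, norm_zero] at h8
        exact zero_ne_one h8
      have hf0 : f.map φ ≠ 0 := by
        rw [hN.fac]
        exact Finset.prod_ne_zero_iff.2 fun i _ => X_sub_C_ne_zero _
      have h9 : 2 ≤ (f.map φ).roots.count a := by
        rw [count_roots]
        exact (le_rootMultiplicity_iff hf0).2 h6
      have h10 : (f.map φ).roots.count a ≤ 1 := by
        have h11 : (f.map φ).roots = Finset.univ.val.map θ := by
          have h12 : (∏ i, (X - C (θ i)) : L[X]) =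
              ((Finset.univ.val.map θ).map fun b => X - C b).prod := by
            rw [Multiset.map_map]
            rfl
          rw [hN.fac, h12, roots_multiset_prod_X_sub_C]
        rw [h11]
        exact Multiset.nodup_iff_count_le_one.1
          ((Multiset.nodup_map_iff_of_injective hinj).2 Finset.univ.nodup) a
      omega
    rcases Nat.le_one_iff_eq_zero_or_eq_one.1 hm1 with h | h
    · rw [h]
      exact hbd _
    · rw [h]
      refine ⟨1 / ‖X₁‖ + CB, ‖X₁‖, hX₁pos, fun X _ hX => ?_⟩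
      rw [pow_one]
      beta_reduce
      rw [hev]
      exact hdiff X hX
  · -- ordinary point
    obtain ⟨A', hA'⟩ := hM.dvd
    obtain ⟨CA', hCA'0, hCA'⟩ := eval_bdd (A'.map φ)
    have hypos : 0 < ‖yy θ s X₁‖ := norm_pos_iff.2 hy0
    have hD : 0 < 1 / ‖X₁‖ + CB := by positivity
    refine ⟨CA * (1 / ‖X₁‖) ^ m * CA' / ‖yy θ s X₁‖,
      min ‖X₁‖ (‖yy θ s X₁‖ / (1 / ‖X₁‖ + CB)), lt_min hX₁pos (by positivity), fun X _ hX => ?_⟩
    have hX1 : ‖X - X₁‖ < ‖X₁‖ := hX.trans_le (min_le_left _ _)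
    have hX2 : (1 / ‖X₁‖ + CB) * ‖X - X₁‖ < ‖yy θ s X₁‖ := by
      have h3 := hX.trans_le (min_le_right _ _)
      rw [lt_div_iff₀ hD] at h3
      linarith
    obtain ⟨h1, hXA⟩ := hnear X hX1
    beta_reduce
    rw [hev]
    have h3 : (yy θ s X - (B.map φ).eval (xx θ X)) * (yy θ s X + (B.map φ).eval (xx θ X)) =
        -((A.map φ).eval (xx θ X) * (A'.map φ).eval (xx θ X)) := by
      have h4 := congrArg (eval₂ φ (xx θ X)) hA'
      rw [eval₂_sub, eval₂_pow, eval₂_mul, ← hcurve X hXA] at h4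
      rw [eval_map, eval_map, eval_map]
      linear_combination -h4
    have h5 : ‖yy θ s X + (B.map φ).eval (xx θ X)‖ = ‖yy θ s X₁‖ := by
      have h6 : yy θ s X + (B.map φ).eval (xx θ X) = 2 * yy θ s X₁ +
          ((yy θ s X - yy θ s X₁) + ((B.map φ).eval (xx θ X) - (B.map φ).eval a)) := by
        rw [hB]
        ring
      have h7 : ‖(yy θ s X - yy θ s X₁) + ((B.map φ).eval (xx θ X) - (B.map φ).eval a)‖ <
          ‖yy θ s X₁‖ := by
        refine lt_of_le_of_lt ?_ hX2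
        calc _ ≤ ‖yy θ s X - yy θ s X₁‖ + ‖(B.map φ).eval (xx θ X) - (B.map φ).eval a‖ :=
              norm_add_le _ _
          _ ≤ ‖X - X₁‖ / ‖X₁‖ + CB * ‖X - X₁‖ := add_le_add (hyyL X hX1) (hCB X hX1)
          _ = (1 / ‖X₁‖ + CB) * ‖X - X₁‖ := by ring
      have h8 : ‖2 * yy θ s X₁‖ = ‖yy θ s X₁‖ := by rw [norm_mul, h2, one_mul]
      rw [h6, IsUltrametricDist.norm_add_eq_max_of_norm_ne_norm (by rw [h8]; exact h7.ne'), h8,
        max_eq_left h7.le]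
    have h9 : ‖yy θ s X - (B.map φ).eval (xx θ X)‖ * ‖yy θ s X₁‖ =
        ‖(A.map φ).eval (xx θ X)‖ * ‖(A'.map φ).eval (xx θ X)‖ := by
      rw [← h5, ← norm_mul, h3, norm_neg, norm_mul]
    have h10 : ‖yy θ s X - (B.map φ).eval (xx θ X)‖ =
        ‖(A.map φ).eval (xx θ X)‖ * ‖(A'.map φ).eval (xx θ X)‖ / ‖yy θ s X₁‖ := by
      rw [← h9, mul_div_assoc, div_self hypos.ne', mul_one]
    rw [h10, div_mul_eq_mul_div]
    apply div_le_div_of_nonneg_right _ hypos.le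
    calc ‖(A.map φ).eval (xx θ X)‖ * ‖(A'.map φ).eval (xx θ X)‖ ≤
          (CA * (1 / ‖X₁‖) ^ m * ‖X - X₁‖ ^ m) * CA' :=
          mul_le_mul (hAval X hX1) (hCA' _ (hxx1 X hXA)) (norm_nonneg _) (by positivity)
      _ = CA * (1 / ‖X₁‖) ^ m * CA' * ‖X - X₁‖ ^ m := by ring

end Pool.Agent.SZT.H18
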