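import Pool.Agent.SZT.StmtsB

set_option autoImplicit false

/-!
# SZT, row EIA: arithmetic of the node inequality
-/

noncomputable section

open Polynomial H58Q
open Pool.Agent.SZT.B

namespace Pool.Agent.SZT.H18

theorem eia : B.EiaStmt := by
  intro L _ _ η Z w M hη0 hη1 hM hann hcard hw hle
  have hηpos : 0 < ‖η‖ := norm_pos_iff.2 hη0
  obtain ⟨ℓ, hℓ⟩ : ∃ ℓ : ℝ, ℓ = Real.log ‖η‖ := ⟨_, rfl⟩
  have hℓneg : ℓ < 0 := hℓ ▸ Real.log_neg hηpos hη1
  have hM' : (0 : ℝ) < M := by exact_mod_cast hM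
  -- positions
  have hpos : ∀ x : L, Ann ‖η‖ x → 0 < ‖x‖ ∧ 0 < pos ‖η‖ x ∧ pos ‖η‖ x < 1 ∧
      Real.log ‖x‖ = pos ‖η‖ x * ℓ := by
    intro x hx
    have h1 : 0 < ‖x‖ := hηpos.trans hx.1
    have h2 : Real.log ‖x‖ < 0 := Real.log_neg h1 hx.2
    have h3 : ℓ < Real.log ‖x‖ := by
      rw [hℓ]
      exact Real.log_lt_log hηpos hx.1
    have h4 : Real.log ‖x‖ = pos ‖η‖ x * ℓ := by
      unfold pos
      rw [← hℓ, div_mul_cancel₀ _ hℓneg.ne]
    refine ⟨h1, ?_, ?_, h4⟩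
    · unfold pos
      rw [← hℓ]
      exact div_pos_of_neg_of_neg h2 hℓneg
    · unfold pos
      rw [← hℓ, div_lt_one_of_neg hℓneg]
      exact h3
  -- logarithm of one factor
  have hfac : ∀ x x' : L, Ann ‖η‖ x → Ann ‖η‖ x' → ‖1 - x' * x / η‖ ≠ 0 →
      Real.log (‖1 - x' * x / η‖ * (‖η‖ / ‖x'‖) ^ (1 - pos ‖η‖ x)) =
        Real.log ‖1 - x' * x / η‖ + (1 - pos ‖η‖ x) * ((1 - pos ‖η‖ x') * ℓ) := by
    intro x x' hx hx' h0
    obtain ⟨h1, -, -, h4⟩ := hpos x' hx'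
    have h5 : 0 < ‖η‖ / ‖x'‖ := div_pos hηpos h1
    rw [Real.log_mul h0 (Real.rpow_pos_of_pos h5 _).ne', Real.log_rpow h5,
      Real.log_div hηpos.ne' h1.ne', h4, ← hℓ]
    ring
  have hself : ∀ x : L, Ann ‖η‖ x → ‖1 - x * x / η‖ ≠ 0 →
      Real.log ‖x - η / x‖ = (1 - pos ‖η‖ x) * ℓ + Real.log ‖1 - x * x / η‖ := by
    intro x hx h0
    obtain ⟨h1, -, -, h4⟩ := hpos x hx
    have hx0 : x ≠ 0 := norm_pos_iff.1 h1
    have h5 : x - η / x = -(η / x * (1 - x * x / η)) := by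
      field_simp
      ring
    rw [h5, norm_neg, norm_mul, norm_div, Real.log_mul (div_pos hηpos h1).ne' h0,
      Real.log_div hηpos.ne' h1.ne', h4, ← hℓ]
    ring
  -- from the bound for `w`
  have hwlog : ∀ (a P : ℝ), 0 < a → a ≤ P ^ M → 0 ≤ P → 0 < P ∧ 1 / (M : ℝ) * Real.log a ≤
      Real.log P := by
    intro a P ha haP hP
    have h1 : 0 < P := by
      rcases hP.lt_or_eq with h | h
      · exact h
      · rw [← h, zero_pow (by omega)] at haP
        linarith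
    refine ⟨h1, ?_⟩
    have h2 := Real.log_le_log ha haP
    rw [Real.log_pow] at h2
    rw [one_div, inv_mul_le_iff₀ hM']
    exact h2
  rcases Nat.lt_or_ge Z.card 1 with hc | hc
  · have hZ : Z = 0 := Multiset.card_eq_zero.1 (by omega)
    subst hZ
    simp
  rcases Nat.lt_or_ge Z.card 2 with hc2 | hc2
  · obtain ⟨x, hZ⟩ := Multiset.card_eq_one.1 (show Z.card = 1 by omega)
    subst hZ
    have hx : x ∈ ({x} : Multiset L) := Multiset.mem_singleton_self x
    have hax := hann x hx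
    obtain ⟨h1, h2, h3, h4⟩ := hpos x hax
    have h5 := hle x hx
    simp only [Multiset.map_singleton, Multiset.prod_singleton, Multiset.sum_singleton] at h5 ⊢
    have h6 : 0 ≤ ‖1 - x * x / η‖ * (‖η‖ / ‖x‖) ^ (1 - pos ‖η‖ x) :=
      mul_nonneg (norm_nonneg _) (Real.rpow_nonneg (by positivity) _)
    obtain ⟨h7, h8⟩ := hwlog _ _ (hw x hx) h5 h6
    have h9 : ‖1 - x * x / η‖ ≠ 0 := by
      intro h
      rw [h, zero_mul] at h7
      exact lt_irrefl _ h7
    rw [hfac x x hax hax h9] at h8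
    rw [hself x hax h9]
    have h10 : Int.fract (pos ‖η‖ x) = pos ‖η‖ x := Int.fract_eq_self.2 ⟨h2.le, h3⟩
    rw [h10, ← hℓ]
    nlinarith
  · obtain ⟨x, y, hZ⟩ := Multiset.card_eq_two.1 (show Z.card = 2 by omega)
    subst hZ
    have hx : x ∈ ({x, y} : Multiset L) := by simp
    have hy : y ∈ ({x, y} : Multiset L) := by simp
    have hax := hann x hx
    have hay := hann y hy
    obtain ⟨x1, x2, x3, x4⟩ := hpos x hax
    obtain ⟨y1, y2, y3, y4⟩ := hpos y hay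
    have h5x := hle x hx
    have h5y := hle y hy
    have hpair : ∀ g : L → ℝ, (Multiset.map g ({x, y} : Multiset L)).prod = g x * g y := by
      intro g
      simp
    have hpairs : ∀ g : L → ℝ, (Multiset.map g ({x, y} : Multiset L)).sum = g x + g y := by
      intro g
      simp
    rw [hpair] at h5x h5y
    rw [hpairs, hpairs]
    have hn : ∀ u v : L, 0 ≤ ‖1 - u * v / η‖ * (‖η‖ / ‖u‖) ^ (1 - pos ‖η‖ v) := fun u v =>
      mul_nonneg (norm_nonneg _) (Real.rpow_nonneg (by positivity) _)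
    obtain ⟨h7x, h8x⟩ := hwlog _ _ (hw x hx) h5x (mul_nonneg (hn x x) (hn y x))
    obtain ⟨h7y, h8y⟩ := hwlog _ _ (hw y hy) h5y (mul_nonneg (hn x y) (hn y y))
    have nz1 : ‖1 - x * x / η‖ ≠ 0 := by
      intro h
      rw [h, zero_mul, zero_mul] at h7x
      exact lt_irrefl _ h7x
    have nz2 : ‖1 - y * x / η‖ ≠ 0 := by
      intro h
      rw [h, zero_mul, mul_zero] at h7x
      exact lt_irrefl _ h7x
    have nz3 : ‖1 - x * y / η‖ ≠ 0 := by
      intro h
      rw [h, zero_mul, zero_mul] at h7y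
      exact lt_irrefl _ h7y
    have nz4 : ‖1 - y * y / η‖ ≠ 0 := by
      intro h
      rw [h, zero_mul, mul_zero] at h7y
      exact lt_irrefl _ h7y
    have e1 := hfac x x hax hax nz1
    have e2 := hfac x y hax hay nz2
    have e3 := hfac y x hay hax nz3
    have e4 := hfac y y hay hay nz4
    have g1 : ‖1 - x * x / η‖ * (‖η‖ / ‖x‖) ^ (1 - pos ‖η‖ x) ≠ 0 := (left_ne_zero_of_mul h7x.ne')
    have g2 : ‖1 - y * x / η‖ * (‖η‖ / ‖y‖) ^ (1 - pos ‖η‖ x) ≠ 0 :=
      (right_ne_zero_of_mul h7x.ne')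
    have g3 : ‖1 - x * y / η‖ * (‖η‖ / ‖x‖) ^ (1 - pos ‖η‖ y) ≠ 0 := (left_ne_zero_of_mul h7y.ne')
    have g4 : ‖1 - y * y / η‖ * (‖η‖ / ‖y‖) ^ (1 - pos ‖η‖ y) ≠ 0 :=
      (right_ne_zero_of_mul h7y.ne')
    rw [Real.log_mul g1 g2, e1, e2] at h8x
    rw [Real.log_mul g3 g4, e3, e4] at h8y
    rw [hself x hax nz1, hself y hay nz4]
    have hxy : y * x = x * y := mul_comm y x
    rw [hxy] at h8x
    -- the mixed term
    have hmix : ‖1 - x * y / η‖ ≤ max 1 (‖x‖ * ‖y‖ / ‖η‖) := by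
      rw [sub_eq_add_neg]
      refine (IsUltrametricDist.norm_add_le_max _ _).trans ?_
      rw [norm_one, norm_neg, norm_div, norm_mul]
    have hlogq : Real.log (‖x‖ * ‖y‖ / ‖η‖) = (pos ‖η‖ x + pos ‖η‖ y - 1) * ℓ := by
      rw [Real.log_div (mul_pos x1 y1).ne' hηpos.ne', Real.log_mul x1.ne' y1.ne', x4, y4, ← hℓ]
      ring
    have hq : 0 < ‖x‖ * ‖y‖ / ‖η‖ := by positivity
    have hm0 : 0 < ‖1 - x * y / η‖ := lt_of_le_of_ne (norm_nonneg _) (Ne.symm nz3)
    obtain ⟨n, hn'⟩ : ∃ n : ℝ, n = Real.log ‖1 - x * y / η‖ := ⟨_, rfl⟩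
    rw [← hn'] at h8x h8y
    obtain ⟨s, hs⟩ : ∃ s : ℝ, s = pos ‖η‖ x := ⟨_, rfl⟩
    obtain ⟨t, ht⟩ : ∃ t : ℝ, t = pos ‖η‖ y := ⟨_, rfl⟩
    rw [← hs, ← ht] at h8x h8y hlogq
    rw [← hs] at x2 x3 x4
    rw [← ht] at y2 y3 y4
    rw [← hs, ← ht, ← hℓ]
    rcases le_or_gt 1 (s + t) with hst | hst
    · have hfr : Int.fract (s + t) = s + t - 1 := by
        rw [Int.fract_eq_iff]
        refine ⟨by linarith, by linarith, 1, ?_⟩
        push_cast
        ring
      have hnle : n ≤ 0 := by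
        rw [hn']
        apply Real.log_nonpos (norm_nonneg _)
        refine hmix.trans (max_le le_rfl ?_)
        have h9 : Real.log (‖x‖ * ‖y‖ / ‖η‖) ≤ 0 := by
          rw [hlogq]
          nlinarith
        by_contra hcon
        push Not at hcon
        have := Real.log_pos hcon
        linarith
      rw [hfr]
      nlinarith
    · have hfr : Int.fract (s + t) = s + t := Int.fract_eq_self.2 ⟨by linarith, hst⟩
      have hnle : n ≤ (s + t - 1) * ℓ := by
        rw [hn', ← hlogq]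
        apply Real.log_le_log hm0
        refine hmix.trans (max_le ?_ le_rfl)
        have h9 : 0 ≤ Real.log (‖x‖ * ‖y‖ / ‖η‖) := by
          rw [hlogq]
          nlinarith
        by_contra hcon
        push Not at hcon
        have := Real.log_neg hq hcon
        linarith
      rw [hfr]
      nlinarith

end Pool.Agent.SZT.H18
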